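import Pool.Agent.helper3.PFS.UNI
import Pool.Agent.helper9.PFS.RET
import Pool.Agent.helper9.PFS.TRV
import Pool.Agent.helper11.PFS.CYB
import Pool.Agent.helper12.PFS.BUR
import Pool.Agent.helper12.PFS.CYC
import Pool.Agent.helper12.PFS.FN2
import Pool.Agent.helper12.PFS.Fin2
import Pool.Agent.helper12.PFS.HCL
import Pool.Agent.helper12.PFS.LIN
import Pool.Agent.helper12.PFS.SM1
import Pool.Agent.helper12.PFS.ST1
import Pool.Agent.helper18.PFS.HAM
import Pool.Agent.helper22.PFS.WKA
import Pool.Agent.helper37.PFS.WL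
import Pool.Agent.helper39.PFS.EXX
import Pool.Agent.helper44.PFS.CHN
import Pool.Agent.helper46.PFS.STG
import Pool.Agent.helper54.PFS.WKB
import Pool.Agent.helper72.PFS.FA3
import Pool.Agent.helper79.PFS.NUM
import Pool.Agent.helper79.PFS.STP
import Pool.Agent.helper87.PFS.FA1
import Pool.Agent.helper90.PFS.SM2
import Pool.Agent.helper95.PFS.LC

/-!
# Almost perfect starters in solvable groups of odd order with cyclic Sylow `3`-subgroups

`G` is a finite solvable group of odd order `n > 1` with cyclic Sylow `3`-subgroups, `N` a normal subgroup with cyclic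
quotient.  `G` has a starter such that for at least `n * φ [G : N] * W |N|` of the `n (n - 1)` ordered pairs `(g, h)`, `g ≠ h`,
the union of the one-factors `F_g`, `F_h` is a Hamiltonian cycle of the complete graph on `G ∪ {∞}`.  `W k` is the product over
the prime factors `p` of `k` of `(p - 3) ^ v_p(k)` for `p ≠ 3` and of `2 * 3 ^ (v_3(k) - 1)` for `p = 3`.
-/

set_option autoImplicit false

namespace Pool.Agent.Results.MP_16a903_co.AlmostPerfectStarters

open Pool.Agent.PFS

theorem result (G : Type) [Group G] [Fintype G] [DecidableEq G] (N : Subgroup G) [N.Normal]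
    (hG : Group.IsSolvable G) (hodd : Odd (Fintype.card G)) (h1 : 1 < Fintype.card G)
    (h3 : ∀ P : Sylow 3 G, IsCyclic P) (hN : IsCyclic (G ⧸ N)) :
    ∃ f : G → G,
      (∀ x : G, x ≠ 1 → f x ≠ 1 ∧ f x ≠ x ∧ f (f x) = x) ∧
      (∀ h : G, h ≠ 1 → ∃ x : G, x ≠ 1 ∧ x * (f x)⁻¹ = h) ∧
      Fintype.card G * (Nat.totient N.index * ∏ p ∈ (Nat.card N).primeFactors,
          (if p = 3 then 2 * 3 ^ ((Nat.card N).factorization 3 - 1) else (p - 3) ^ (Nat.card N).factorization p)) ≤
        Nat.card {q : G × G // q.1 ≠ q.2 ∧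
          ∃ (a : Option G)
            (p : (SimpleGraph.fromRel (fun u v : Option G =>
                    (u = Option.none ∧ v = Option.some q.1) ∨
                    ∃ x : G, x ≠ 1 ∧ u = Option.some (x * q.1) ∧ v = Option.some (f x * q.1)) ⊔
                  SimpleGraph.fromRel (fun u v : Option G =>
                    (u = Option.none ∧ v = Option.some q.2) ∨
                    ∃ x : G, x ≠ 1 ∧ u = Option.some (x * q.2) ∧ v = Option.some (f x * q.2))).Walk a a),
            p.IsHamiltonianCycle} := by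
  have hLC : LC_stmt := LC WL UNI LIN CYC WKA WKB RET
  have hFA3 : FA3_stmt := FA3 (FA1 hLC (ST1 LIN) NSC NEG REP) NEG
  have hSTP : STP_stmt := STP hLC (STG LIN) NSC hFA3 REP RM CJ
  have hFN2 : FN2_stmt := FN2 hSTP (TRV hFA3 CJ) CHN EXX WMU CYB
  exact Fin2 (HAM HCL CYC) hFN2 BUR NUM G N hG hodd h1 h3 hN

end Pool.Agent.Results.MP_16a903_co.AlmostPerfectStarters
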